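import Pool.Agent.Q98.SPN.Stm

/-!
# The adjoint in the group algebra (job ADJ of project SPN)
-/

set_option autoImplicit false

open Pool.Agent.Q98.SPN Pool.Agent.H172R2.GS
open scoped Matrix.Norms.L2Operator Matrix

namespace Pool.Agent.Q224.SPN

theorem ADJ_ok : S_ADJ := by
  intro G _ _ k d Ψ hΨ a
  classical
  have ha : a = ∑ g : G, MonoidAlgebra.single g (a.coeff g) := by
    ext h
    simp [MonoidAlgebra.coeff_sum, Finsupp.single_apply]
  have hs : ∀ (g : G) (c : ℂ), (MonoidAlgebra.single g c : MonoidAlgebra ℂ G) =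
      c • MonoidAlgebra.single g 1 := by
    intro g c
    rw [MonoidAlgebra.smul_single, smul_eq_mul, mul_one]
  constructor
  · intro i
    have e1 : Ψ (adj a) i = ∑ g : G, star (a.coeff g⁻¹) • Ψ (MonoidAlgebra.single g 1) i := by
      unfold adj
      rw [map_sum, Finset.sum_apply]
      refine Finset.sum_congr rfl fun g _ => ?_
      rw [hs, map_smul, Pi.smul_apply]
    have e2 : Ψ a i = ∑ g : G, a.coeff g • Ψ (MonoidAlgebra.single g 1) i := by
      conv_lhs => rw [ha]
      rw [map_sum, Finset.sum_apply]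
      refine Finset.sum_congr rfl fun g _ => ?_
      rw [hs, map_smul, Pi.smul_apply]
    rw [e1, e2, Matrix.conjTranspose_sum, ← Equiv.sum_comp (Equiv.inv G)]
    refine Finset.sum_congr rfl fun g _ => ?_
    rw [Matrix.conjTranspose_smul, Equiv.inv_apply, inv_inv]
    congr 1
    have h3 := hΨ.unitary g i
    have h4 : Ψ (MonoidAlgebra.single g 1) i * Ψ (MonoidAlgebra.single g⁻¹ 1) i = 1 := by
      rw [← Pi.mul_apply, ← map_mul, MonoidAlgebra.single_mul_single, mul_inv_cancel, mul_one,
        ← MonoidAlgebra.one_def, map_one]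
      rfl
    exact (left_inv_eq_right_inv h3 h4).symm
  · have e : (adj a * a).coeff 1 = ∑ g : G, star (a.coeff g⁻¹) * a.coeff g⁻¹ := by
      unfold adj
      rw [Finset.sum_mul, MonoidAlgebra.coeff_sum, Finsupp.finsetSum_apply]
      refine Finset.sum_congr rfl fun g _ => ?_
      rw [MonoidAlgebra.coeff_single_mul_apply, mul_one]
    have e3 : ∑ g : G, star (a.coeff g⁻¹) * a.coeff g⁻¹ = ∑ g : G, star (a.coeff g) * a.coeff g :=
      Equiv.sum_comp (Equiv.inv G) fun g => star (a.coeff g) * a.coeff g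
    rw [e, e3]
    push_cast
    refine Finset.sum_congr rfl fun g _ => ?_
    rw [← Complex.conj_mul']
    rfl

end Pool.Agent.Q224.SPN
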