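import Pool.Agent.Q98.SPN.Star

/-!
# The algebra of the convolution matrices of a finite group (job GRA of project SPN)
-/

set_option autoImplicit false

open Pool.Agent.Q98.SPN
open scoped Matrix.Norms.L2Operator Matrix

namespace Pool.Agent.Q224.SPN

variable {G : Type} [Group G] [Fintype G] [DecidableEq G]

lemma convR_mul (x y : G → ℝ) :
    convR x * convR y = convR fun g => ∑ l, x (g * l⁻¹) * y l := by
  ext h k
  rw [Matrix.mul_apply]
  change ∑ l, x (h * l⁻¹) * y (l * k⁻¹) = ∑ l, x (h * k⁻¹ * l⁻¹) * y l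
  rw [← Equiv.sum_comp (Equiv.mulRight k⁻¹) fun l => x (h * k⁻¹ * l⁻¹) * y l]
  refine Finset.sum_congr rfl fun l _ => ?_
  rw [Equiv.coe_mulRight, mul_inv_rev, inv_inv, mul_assoc h, inv_mul_cancel_left]

lemma convR_algebraMap (r : ℝ) :
    algebraMap ℝ (Matrix G G ℝ) r = convR fun g => if g = 1 then r else 0 := by
  ext h k
  rw [Matrix.algebraMap_matrix_apply]
  change _ = if h * k⁻¹ = 1 then r else 0
  simp [mul_inv_eq_one]

/-- The linear map `convR`. -/
def convL (G : Type) [Group G] [Fintype G] [DecidableEq G] : (G → ℝ) →ₗ[ℝ] Matrix G G ℝ where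
  toFun := convR
  map_add' _ _ := rfl
  map_smul' _ _ := rfl

/-- The algebra of the convolution matrices. -/
def convA (G : Type) [Group G] [Fintype G] [DecidableEq G] : Subalgebra ℝ (Matrix G G ℝ) where
  carrier := Set.range convR
  mul_mem' := by
    rintro _ _ ⟨x, rfl⟩ ⟨y, rfl⟩
    exact ⟨_, (convR_mul x y).symm⟩
  add_mem' := by
    rintro _ _ ⟨x, rfl⟩ ⟨y, rfl⟩
    exact ⟨x + y, rfl⟩
  algebraMap_mem' := fun r => ⟨_, (convR_algebraMap r).symm⟩

theorem GRA_ok : S_GRA := by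
  intro G _ _ _
  refine ⟨convA G, ?_, fun x => ⟨x, rfl⟩, ?_⟩
  · rintro _ ⟨x, rfl⟩
    refine ⟨fun g => x g⁻¹, ?_⟩
    ext h k
    change x (h * k⁻¹)⁻¹ = x (k * h⁻¹)
    rw [mul_inv_rev, inv_inv]
  · have h1 : Subalgebra.toSubmodule (convA G) = LinearMap.range (convL G) := rfl
    rw [← Subalgebra.finrank_toSubmodule, h1]
    refine (LinearMap.finrank_range_le _).trans ?_
    rw [Module.finrank_fintype_fun_eq_card]

end Pool.Agent.Q224.SPN
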