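import Pool.Agent.Q98.SPN.Stm

/-!
# Hilbert-Schmidt norms and the operator norm (job HS of project SPN)
-/

set_option autoImplicit false

open Pool.Agent.Q98.SPN Pool.Agent.H172R2.GS
open scoped Matrix.Norms.L2Operator Matrix

namespace Pool.Agent.Q224.SPN

/-- The trace of `Yᴴ Y` is the sum of the squares of the absolute values of the entries. -/
lemma trace_re {d : ℕ} (Y : Matrix (Fin d) (Fin d) ℂ) :
    (Matrix.trace (Yᴴ * Y)).re = ∑ j, ‖(WithLp.toLp 2 (fun i => Y i j) :
      EuclideanSpace ℂ (Fin d))‖ ^ 2 := by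
  unfold Matrix.trace
  rw [Complex.re_sum]
  refine Finset.sum_congr rfl fun j _ => ?_
  rw [EuclideanSpace.norm_sq_eq, Matrix.diag_apply, Matrix.mul_apply, Complex.re_sum]
  refine Finset.sum_congr rfl fun i _ => ?_
  rw [Matrix.conjTranspose_apply]
  have h := Complex.conj_mul' (Y i j)
  have h2 : star (Y i j) * Y i j = ((‖Y i j‖ ^ 2 : ℝ) : ℂ) := by
    rw [Complex.ofReal_pow]
    exact h
  rw [h2, Complex.ofReal_re]

lemma norm_mulVec {d : ℕ} (X : Matrix (Fin d) (Fin d) ℂ) (v : Fin d → ℂ) :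
    ‖(WithLp.toLp 2 (X *ᵥ v) : EuclideanSpace ℂ (Fin d))‖ ≤
      ‖X‖ * ‖(WithLp.toLp 2 v : EuclideanSpace ℂ (Fin d))‖ :=
  Matrix.l2_opNorm_mulVec X (WithLp.toLp 2 v)

/-- The matrix with all columns zero except for the first one. -/
def firstCol {d : ℕ} (h : 0 < d) (v : Fin d → ℂ) : Matrix (Fin d) (Fin d) ℂ :=
  Matrix.of fun i j => if j = ⟨0, h⟩ then v i else 0

lemma trace_firstCol {d : ℕ} (h : 0 < d) (v : Fin d → ℂ) :
    (Matrix.trace ((firstCol h v)ᴴ * firstCol h v)).re =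
      ‖(WithLp.toLp 2 v : EuclideanSpace ℂ (Fin d))‖ ^ 2 := by
  rw [trace_re, Finset.sum_eq_single ⟨0, h⟩]
  · have e : (fun i => firstCol h v i ⟨0, h⟩) = v := by
      funext i
      simp [firstCol]
    rw [e]
  · intro j _ hj
    have e : (fun i => firstCol h v i j) = 0 := by
      funext i
      simp [firstCol, hj]
    rw [e]
    simp
  · intro hj
    exact absurd (Finset.mem_univ _) hj

lemma mul_firstCol {d : ℕ} (h : 0 < d) (X : Matrix (Fin d) (Fin d) ℂ) (v : Fin d → ℂ) :
    X * firstCol h v = firstCol h (X *ᵥ v) := by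
  ext i j
  rw [Matrix.mul_apply]
  by_cases hj : j = ⟨0, h⟩
  · simp [firstCol, hj, Matrix.mulVec, dotProduct]
  · simp [firstCol, hj]

theorem HS_ok : S_HS := by
  intro d X Y
  refine ⟨?_, ?_⟩
  · rw [trace_re, trace_re, Finset.mul_sum]
    refine Finset.sum_le_sum fun j _ => ?_
    rw [← mul_pow]
    refine pow_le_pow_left₀ (norm_nonneg _) ?_ 2
    exact norm_mulVec X (fun i => Y i j)
  · intro c hc hd h
    rw [Matrix.l2_opNorm_def]
    refine ContinuousLinearMap.opNorm_le_bound _ hc fun x => ?_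
    have h1 := h (firstCol hd (WithLp.ofLp x))
    rw [mul_firstCol, trace_firstCol, trace_firstCol, ← mul_pow] at h1
    have h2 := abs_le_of_sq_le_sq h1 (by positivity)
    rw [abs_of_nonneg (norm_nonneg _)] at h2
    exact h2

end Pool.Agent.Q224.SPN
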