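import Pool.Agent.Q98.SPN.Star

/-!
# Signs in real algebras of matrices (job MAINR of project SPN)
-/

set_option autoImplicit false

open Pool.Agent.Q98.SPN
open scoped Matrix.Norms.L2Operator Matrix

namespace Pool.Agent.Q224.SPN

theorem MAINR_ok (h1 : S_MAINC) (h2 : S_CPX) (h3 : S_RNM) : S_MAINR := by
  intro m _ _ 𝒜 N hT hN hrank J _ _ A hA hA1
  obtain ⟨𝒞, hC, hfin⟩ := h2 m 𝒜 hT
  obtain ⟨ε, hε, hb⟩ := h1 m 𝒞 N hN ((Nat.cast_le.2 hfin).trans hrank) J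
    (fun j => (A j).map (fun t : ℝ => (t : ℂ))) (fun j => hC _ (hA j))
    (fun j => by rw [h3]; exact hA1 j)
  refine ⟨ε, hε, ?_⟩
  have e : ∑ g, ((ε g : ℝ) : ℂ) • (A g).map (fun t : ℝ => (t : ℂ)) =
      (∑ g, ε g • A g).map (fun t : ℝ => (t : ℂ)) := by
    ext i j
    rw [Matrix.sum_apply, Matrix.map_apply, Matrix.sum_apply]
    push_cast
    refine Finset.sum_congr rfl fun g _ => ?_
    rw [Matrix.smul_apply, Matrix.smul_apply, Matrix.map_apply, smul_eq_mul, smul_eq_mul]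
    push_cast
    rfl
  rw [← h3, ← e]
  exact hb

end Pool.Agent.Q224.SPN
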