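import Pool.Agent.Q98.SPN.Stm

/-!
# Unitary model of a group algebra (job MOD of project SPN)
-/

set_option autoImplicit false

open Pool.Agent.Q98.SPN Pool.Agent.H172R2.GS
open scoped Matrix.Norms.L2Operator Matrix

namespace Pool.Agent.Q224.SPN

/-- Conjugation by an invertible matrix. -/
def conjU {d : ℕ} (S : (Matrix (Fin d) (Fin d) ℂ)ˣ) :
    Matrix (Fin d) (Fin d) ℂ ≃ₐ[ℂ] Matrix (Fin d) (Fin d) ℂ where
  toFun X := (S : Matrix (Fin d) (Fin d) ℂ) * X *
    ((S⁻¹ : (Matrix (Fin d) (Fin d) ℂ)ˣ) : Matrix (Fin d) (Fin d) ℂ)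
  invFun X := ((S⁻¹ : (Matrix (Fin d) (Fin d) ℂ)ˣ) : Matrix (Fin d) (Fin d) ℂ) * X *
    (S : Matrix (Fin d) (Fin d) ℂ)
  left_inv X := by
    beta_reduce
    rw [mul_assoc, mul_assoc, mul_assoc, Units.inv_mul, mul_one, Units.inv_mul_cancel_left]
  right_inv X := by
    beta_reduce
    rw [mul_assoc, mul_assoc, mul_assoc, Units.mul_inv, mul_one, Units.mul_inv_cancel_left]
  map_mul' X Y := by
    rw [mul_assoc _ _ (_ * Y * _), mul_assoc (S : Matrix (Fin d) (Fin d) ℂ) Y,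
      Units.inv_mul_cancel_left, mul_assoc, mul_assoc, mul_assoc]
  map_add' X Y := by rw [mul_add, add_mul]
  commutes' r := by
    rw [← Algebra.commutes, mul_assoc, Units.mul_inv, mul_one]

theorem MOD_ok (h1 : S_WED) (h2 : S_UNI) : S_MOD := by
  intro G _ _ _
  obtain ⟨k, d, Φ, hd, hsum⟩ := h1 G
  let ρ : (i : Fin k) → G →* Matrix (Fin (d i)) (Fin (d i)) ℂ := fun i =>
    { toFun := fun g => Φ (MonoidAlgebra.single g 1) i
      map_one' := by
        rw [← MonoidAlgebra.one_def, map_one]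
        rfl
      map_mul' := fun g h => by
        rw [← Pi.mul_apply, ← map_mul, MonoidAlgebra.single_mul_single, mul_one] }
  choose S hS using fun i => h2 G (d i) (ρ i)
  refine ⟨k, d, Φ.trans (AlgEquiv.piCongrRight fun i => conjU (S i)), ⟨hd, fun g i => ?_⟩, hsum⟩
  exact hS i g

end Pool.Agent.Q224.SPN
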