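import Pool.Agent.Q98.SPN.Star

/-!
# The norm of a real matrix as a complex matrix (job RNM of project SPN)
-/

set_option autoImplicit false

open Pool.Agent.Q98.SPN
open scoped Matrix.Norms.L2Operator Matrix

namespace Pool.Agent.Q224.SPN

lemma re_mulVec {m : Type} [Fintype m] (A : Matrix m m ℝ) (v : m → ℂ) (i : m) :
    ((A.map (fun t : ℝ => (t : ℂ)) *ᵥ v) i).re = (A *ᵥ fun j => (v j).re) i := by
  simp [Matrix.mulVec, dotProduct, Complex.re_sum]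

lemma im_mulVec {m : Type} [Fintype m] (A : Matrix m m ℝ) (v : m → ℂ) (i : m) :
    ((A.map (fun t : ℝ => (t : ℂ)) *ᵥ v) i).im = (A *ᵥ fun j => (v j).im) i := by
  simp [Matrix.mulVec, dotProduct, Complex.im_sum]

lemma norm_sq_split {m : Type} [Fintype m] (v : m → ℂ) :
    ‖(WithLp.toLp 2 v : EuclideanSpace ℂ m)‖ ^ 2 =
      ‖(WithLp.toLp 2 (fun j => (v j).re) : EuclideanSpace ℝ m)‖ ^ 2 +
        ‖(WithLp.toLp 2 (fun j => (v j).im) : EuclideanSpace ℝ m)‖ ^ 2 := by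
  rw [EuclideanSpace.norm_sq_eq, EuclideanSpace.norm_sq_eq, EuclideanSpace.norm_sq_eq,
    ← Finset.sum_add_distrib]
  refine Finset.sum_congr rfl fun i _ => ?_
  rw [Complex.sq_norm, Complex.normSq_apply, Real.norm_eq_abs, Real.norm_eq_abs, sq_abs, sq_abs]
  ring

lemma norm_mulVec_real {m : Type} [Fintype m] [DecidableEq m] (X : Matrix m m ℝ) (v : m → ℝ) :
    ‖(WithLp.toLp 2 (X *ᵥ v) : EuclideanSpace ℝ m)‖ ≤
      ‖X‖ * ‖(WithLp.toLp 2 v : EuclideanSpace ℝ m)‖ :=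
  Matrix.l2_opNorm_mulVec X (WithLp.toLp 2 v)

lemma norm_mulVec_complex {m : Type} [Fintype m] [DecidableEq m] (X : Matrix m m ℂ) (v : m → ℂ) :
    ‖(WithLp.toLp 2 (X *ᵥ v) : EuclideanSpace ℂ m)‖ ≤
      ‖X‖ * ‖(WithLp.toLp 2 v : EuclideanSpace ℂ m)‖ :=
  Matrix.l2_opNorm_mulVec X (WithLp.toLp 2 v)

theorem RNM_ok : S_RNM := by
  intro m _ _ A
  apply le_antisymm
  · rw [Matrix.l2_opNorm_def (A.map (fun t : ℝ => (t : ℂ)))]
    refine ContinuousLinearMap.opNorm_le_bound _ (norm_nonneg _) fun x => ?_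
    change ‖(WithLp.toLp 2 (A.map (fun t : ℝ => (t : ℂ)) *ᵥ (WithLp.ofLp x)) :
      EuclideanSpace ℂ m)‖ ≤ ‖A‖ * ‖x‖
    have h : ‖(WithLp.toLp 2 (A.map (fun t : ℝ => (t : ℂ)) *ᵥ (WithLp.ofLp x)) :
        EuclideanSpace ℂ m)‖ ^ 2 ≤ (‖A‖ * ‖x‖) ^ 2 := by
      have hx := norm_sq_split (WithLp.ofLp x)
      change ‖x‖ ^ 2 = _ at hx
      rw [norm_sq_split, mul_pow, hx, mul_add, ← mul_pow, ← mul_pow]
      simp only [re_mulVec, im_mulVec]
      exact add_le_add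
        (pow_le_pow_left₀ (norm_nonneg _) (norm_mulVec_real A fun j => (WithLp.ofLp x j).re) 2)
        (pow_le_pow_left₀ (norm_nonneg _) (norm_mulVec_real A fun j => (WithLp.ofLp x j).im) 2)
    exact le_of_sq_le_sq h (by positivity)
  · rw [Matrix.l2_opNorm_def A]
    refine ContinuousLinearMap.opNorm_le_bound _ (norm_nonneg _) fun x => ?_
    change ‖(WithLp.toLp 2 (A *ᵥ (WithLp.ofLp x)) : EuclideanSpace ℝ m)‖ ≤ _ * ‖x‖
    have h1 := norm_mulVec_complex (A.map (fun t : ℝ => (t : ℂ))) (fun j => (WithLp.ofLp x j : ℂ))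
    have h2 : ∀ v : m → ℝ, ‖(WithLp.toLp 2 (fun j => (v j : ℂ)) : EuclideanSpace ℂ m)‖ =
        ‖(WithLp.toLp 2 v : EuclideanSpace ℝ m)‖ := by
      intro v
      rw [EuclideanSpace.norm_eq, EuclideanSpace.norm_eq]
      congr 1
      refine Finset.sum_congr rfl fun i _ => ?_
      rw [Complex.norm_real]
    have h3 : (A.map (fun t : ℝ => (t : ℂ)) *ᵥ fun j => (WithLp.ofLp x j : ℂ)) =
        fun i => ((A *ᵥ (WithLp.ofLp x)) i : ℂ) := by
      funext i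
      simp [Matrix.mulVec, dotProduct]
    rw [h3, h2, h2] at h1
    exact h1

end Pool.Agent.Q224.SPN
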