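import Pool.Agent.Q98.SPN.Stm

/-!
# The trace of left multiplication on a product of matrix algebras (job TRM of project SPN)
-/

set_option autoImplicit false

open Pool.Agent.Q98.SPN Pool.Agent.H172R2.GS
open scoped Matrix.Norms.L2Operator Matrix

namespace Pool.Agent.Q224.SPN

lemma repr_std {n : ℕ} (M : Matrix (Fin n) (Fin n) ℂ) (p : Fin n × Fin n) :
    (Matrix.stdBasis ℂ (Fin n) (Fin n)).repr M p = M p.1 p.2 := by
  rfl

theorem TRM_ok : S_TRM := by
  intro k d a
  classical
  rw [LinearMap.trace_eq_matrix_trace ℂ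
    (Pi.basis fun i : Fin k => Matrix.stdBasis ℂ (Fin (d i)) (Fin (d i)))]
  unfold Matrix.trace
  rw [Fintype.sum_sigma]
  refine Finset.sum_congr rfl fun i _ => ?_
  rw [Fintype.sum_prod_type, Finset.mul_sum]
  refine Finset.sum_congr rfl fun u _ => ?_
  have h : ∀ v : Fin (d i), (LinearMap.toMatrix
      (Pi.basis fun i : Fin k => Matrix.stdBasis ℂ (Fin (d i)) (Fin (d i)))
      (Pi.basis fun i : Fin k => Matrix.stdBasis ℂ (Fin (d i)) (Fin (d i)))
      (LinearMap.mulLeft ℂ a)).diag ⟨i, (u, v)⟩ = (a i).diag u := by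
    intro v
    rw [Matrix.diag_apply, LinearMap.toMatrix_apply, Pi.basis_repr, Pi.basis_apply,
      LinearMap.mulLeft_apply, Pi.mul_apply, Pi.single_eq_same, repr_std,
      Matrix.stdBasis_eq_single]
    simp
  rw [Finset.sum_congr rfl fun v _ => h v, Finset.sum_const, Finset.card_univ, Fintype.card_fin,
    nsmul_eq_mul]

end Pool.Agent.Q224.SPN
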